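import Pool.Agent.P.MP_2f6447_an.Main

open MeasureTheory
open Pool.Agent.P.MP_2f6447_an

namespace Pool.Agent.Results.MP_2f6447_an.Trapezoids

/-- Among parallelograms and trapezoids whose midline is at least the height, the product of the
second Dirichlet eigenvalue and the area is at least `4 π ^ 2`, with equality exactly for the
rectangles with side ratio `1 : 2`. -/
theorem result (T : Set (EuclideanSpace ℝ (Fin 2)))
    (hT : IsParallelogram T ∨ IsWideTrapezoid T) :
    4 * Real.pi ^ 2 ≤ lam2 T * (volume T).toReal ∧
      (lam2 T * (volume T).toReal = 4 * Real.pi ^ 2 ↔ IsOneTwoRectangle T) :=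
  wide_main (hT.elim IsParallelogram.wide id)

end Pool.Agent.Results.MP_2f6447_an.Trapezoids
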